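import Mathlib

/-!
# MP_933b0f_co: the largest component in supercritical Waiter-Client games

The `(q:1)` Waiter-Client game on the edges of `K_n`.  We show that Waiter can do strictly better
than `min n (2 (n - q - 1))`: for every `K ≥ 1` and every `0 < ε < 1 / (2 K + 7)`, for all large
`n` with `q = (1 - ε) n`, Waiter forces a component with at least `2 (n - q - 1) + K` vertices.
In particular the formula `comp(n, q) = min {n, 2 (n - q - 1)}` fails for every `0 < ε < 1/9`.
-/

namespace Pool.Agent.Results.MP_933b0f_co.LargerComponent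

open Finset

/-- Client's graph on all `n` vertices: its edges are the edges kept by Client. -/
def clientGraph {n : ℕ} (C : Finset (Sym2 (Fin n))) : SimpleGraph (Fin n) :=
  SimpleGraph.fromEdgeSet (C : Set (Sym2 (Fin n)))

/-- Client's graph has a connected component with at least `s` vertices. -/
def HasComponent {n : ℕ} (C : Finset (Sym2 (Fin n))) (s : ℕ) : Prop :=
  ∃ K : (clientGraph C).ConnectedComponent, s ≤ K.supp.ncard

/-- `WaiterForces q s U C`: in the `(q:1)` Waiter-Client game in the position where `U` is the set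
of the edges not yet offered and `C` is the set of edges kept by Client, Waiter has a strategy
which guarantees that Client's final graph has a component with at least `s` vertices.
If fewer than `q + 1` edges remain the game is over (they all go to Waiter); otherwise Waiter
offers a set `S` of exactly `q + 1` edges, and Client keeps one of them. -/
inductive WaiterForces {n : ℕ} (q s : ℕ) :
    Finset (Sym2 (Fin n)) → Finset (Sym2 (Fin n)) → Prop
  | last (U C : Finset (Sym2 (Fin n))) : U.card < q + 1 → HasComponent C s → WaiterForces q s U C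
  | round (U C S : Finset (Sym2 (Fin n))) : S ⊆ U → S.card = q + 1 →
      (∀ e ∈ S, WaiterForces q s (U \ S) (insert e C)) → WaiterForces q s U C

/-- All edges of `K_n`. -/
noncomputable def allEdges (n : ℕ) : Finset (Sym2 (Fin n)) :=
  (⊤ : SimpleGraph (Fin n)).edgeFinset

/-- `comp n q`: the order of a largest component of Client's final graph when both players play
optimally (Waiter maximises, Client minimises), i.e. the largest `s` such that Waiter can force a
component of order at least `s`. -/
noncomputable def comp (n q : ℕ) : ℕ :=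
  sSup {s : ℕ | WaiterForces q s (allEdges n) ∅}

lemma reach_mono {n : ℕ} {C : Finset (Sym2 (Fin n))} (e : Sym2 (Fin n)) {a b : Fin n}
    (h : (clientGraph C).Reachable a b) : (clientGraph (insert e C)).Reachable a b := by
  refine h.mono ?_
  unfold clientGraph
  apply SimpleGraph.fromEdgeSet_mono
  simp

lemma WaiterForces.le {n q s : ℕ} {U C : Finset (Sym2 (Fin n))} (h : WaiterForces q s U C) :
    s ≤ n := by
  induction h with
  | last U C _ h =>
    obtain ⟨K, hK⟩ := h
    refine hK.trans ?_
    have := Set.ncard_le_ncard (Set.subset_univ K.supp) (Set.toFinite _)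
    simpa using this
  | round U C S h1 h2 h3 ih =>
    have : S.Nonempty := by
      rw [← Finset.card_pos]; omega
    obtain ⟨e, he⟩ := this
    exact ih e he

/-- Once Client's graph contains a connected set of `s` vertices, Waiter may play arbitrarily. -/
lemma finish {n q s : ℕ} : ∀ (k : ℕ) (U C : Finset (Sym2 (Fin n))) (A : Finset (Fin n)) (p : Fin n),
    U.card ≤ k → s ≤ A.card → (∀ a ∈ A, (clientGraph C).Reachable p a) →
    WaiterForces q s U C := by
  intro k
  induction k with
  | zero =>
    intro U C A p hU hs hA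
    refine WaiterForces.last U C (by omega) ⟨(clientGraph C).connectedComponentMk p, ?_⟩
    refine hs.trans ?_
    rw [← Set.ncard_coe_finset]
    refine Set.ncard_le_ncard ?_ (Set.toFinite _)
    intro a ha
    simp only [SimpleGraph.ConnectedComponent.mem_supp_iff, SimpleGraph.ConnectedComponent.eq]
    exact (hA a ha).symm
  | succ k ih =>
    intro U C A p hU hs hA
    by_cases hc : U.card < q + 1
    · refine WaiterForces.last U C hc ⟨(clientGraph C).connectedComponentMk p, ?_⟩
      refine hs.trans ?_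
      rw [← Set.ncard_coe_finset]
      refine Set.ncard_le_ncard ?_ (Set.toFinite _)
      intro a ha
      simp only [SimpleGraph.ConnectedComponent.mem_supp_iff, SimpleGraph.ConnectedComponent.eq]
      exact (hA a ha).symm
    · obtain ⟨S, hS, hSc⟩ := Finset.exists_subset_card_eq (not_lt.mp hc)
      refine WaiterForces.round U C S hS hSc ?_
      intro e _
      refine ih (U \ S) (insert e C) A p ?_ hs ?_
      · rw [Finset.card_sdiff_of_subset hS]; omega
      · intro a ha
        exact reach_mono e (hA a ha)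

/-- The position during the growth phase: `A` is the vertex set of the growing component, `p` and
`p'` are its two newest vertices; `M` is the set of untouched outside vertices (all edges to `A`
are free), the vertices of `Z₁` have a free edge to `p`, those of `Z₂` have free edges to `p` and
`p'`; all edges between outside vertices are free.  One vertex is discarded. -/
structure State {n : ℕ} (U C : Finset (Sym2 (Fin n))) (A M Z₁ Z₂ : Finset (Fin n))
    (p p' : Fin n) : Prop where
  hp : p ∈ A
  hp' : p' ∈ A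
  hpp : p ≠ p'
  conn : ∀ a ∈ A, (clientGraph C).Reachable p a
  dM : Disjoint A M
  d1 : Disjoint A Z₁
  d2 : Disjoint A Z₂
  dM1 : Disjoint M Z₁
  dM2 : Disjoint M Z₂
  d12 : Disjoint Z₁ Z₂
  hM : ∀ a ∈ A, ∀ x ∈ M, s(a, x) ∈ U
  h1 : ∀ x ∈ Z₁, s(p, x) ∈ U
  h2 : ∀ x ∈ Z₂, s(p, x) ∈ U
  h2' : ∀ x ∈ Z₂, s(p', x) ∈ U
  out : ∀ x ∈ M ∪ Z₁ ∪ Z₂, ∀ y ∈ M ∪ Z₁ ∪ Z₂, x ≠ y → s(x, y) ∈ U

/-- The arithmetic of one round. -/
lemma step_exists {t q T z₁ z₂ μ : ℕ} (ht : 2 ≤ t) (htT : t < T) (hq : 3 * T ≤ q)
    (h2 : z₂ ≤ t) (hz : z₁ + z₂ ≤ q + 1) (hz' : 2 * T ≤ z₁ + z₂)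
    (he : q + 1 ≤ z₁ + 2 * z₂ + t * μ) :
    ∃ k x : ℕ, k ≤ μ ∧ x ≤ z₁ ∧ t * k + x + 2 * z₂ = q + 1 ∧ z₁ - x ≤ t + 1 ∧
      z₁ + z₂ + k ≤ q + 2 ∧ 2 * T + 1 ≤ z₁ + z₂ + k := by
  by_cases hneed : q + 1 ≤ z₁ + 2 * z₂
  · refine ⟨0, q + 1 - 2 * z₂, Nat.zero_le _, ?_, ?_, ?_, ?_, ?_⟩ <;> omega
  · obtain ⟨need, hn⟩ : ∃ need, need + (z₁ + 2 * z₂) = q + 1 := ⟨q + 1 - (z₁ + 2 * z₂), by omega⟩
    have hn1 : 1 ≤ need := by omega
    obtain ⟨k, hk1, hk2⟩ : ∃ k, need ≤ t * k ∧ t * k < need + t := by
      refine ⟨(need + t - 1) / t, ?_, ?_⟩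
      · have h1 := Nat.div_add_mod (need + t - 1) t
        have h2 := Nat.mod_lt (need + t - 1) (by omega : 0 < t)
        omega
      · have h1 := Nat.div_add_mod (need + t - 1) t
        omega
    have hkμ : k ≤ μ := by
      by_contra hcon
      have h1 : μ + 1 ≤ k := by omega
      have h2 : t * (μ + 1) ≤ t * k := Nat.mul_le_mul_left t h1
      have h3 : t * (μ + 1) = t * μ + t := by ring
      omega
    have hk3 : k + 0 ≤ need := by
      -- `k - 1 ≤ t (k - 1) < need`
      rcases Nat.eq_zero_or_pos k with h0 | h0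
      · omega
      · obtain ⟨k', rfl⟩ : ∃ k', k = k' + 1 := ⟨k - 1, by omega⟩
        have h1 : t * (k' + 1) = t * k' + t := by ring
        have h2 : 1 * k' ≤ t * k' := Nat.mul_le_mul_right k' (by omega)
        omega
    have hk4 : 1 ≤ k := by
      rcases Nat.eq_zero_or_pos k with h0 | h0
      · subst h0; simp at hk1; omega
      · exact h0
    refine ⟨k, q + 1 - 2 * z₂ - t * k, hkμ, ?_, ?_, ?_, ?_, ?_⟩ <;> omega

/-- The number of free edges at the component of order `t` (twice that number, as an integer). -/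
def E2 (n q h : ℕ) (t : ℤ) : ℤ :=
  2 * (2 * n - 5 - h) + 2 * (t - 2) * ((n : ℤ) - q - 3) - (t * t - t - 2)

theorem grow {n q T h : ℕ} (hq : 3 * T ≤ q)
    (hE : ∀ t : ℕ, 2 ≤ t → t < T → 2 * ((q : ℤ) + 1) ≤ E2 n q h t) :
    ∀ (j : ℕ) (U C : Finset (Sym2 (Fin n))) (A M Z₁ Z₂ : Finset (Fin n)) (p p' : Fin n),
      State U C A M Z₁ Z₂ p p' → A.card + j = T → 2 ≤ A.card →
      A.card + M.card + Z₁.card + Z₂.card + 1 = n →
      Z₂.card ≤ A.card → Z₁.card + Z₂.card ≤ q + 1 → 2 * T ≤ Z₁.card + Z₂.card →
      2 * ((Z₁.card : ℤ) + 2 * Z₂.card + A.card * M.card) = E2 n q h A.card →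
      WaiterForces q T U C := by
  intro j
  induction j with
  | zero =>
    intro U C A M Z₁ Z₂ p p' hS hT _ _ _ _ _ _
    exact finish U.card U C A p le_rfl (by omega) hS.conn
  | succ j ih =>
    intro U C A M Z₁ Z₂ p p' hS hT hA2 hcard hz2 hz hz' he
    have htT : A.card < T := by omega
    have hneed : q + 1 ≤ Z₁.card + 2 * Z₂.card + A.card * M.card := by
      have := hE A.card hA2 htT
      have h3 : ((q + 1 : ℕ) : ℤ) ≤ ((Z₁.card + 2 * Z₂.card + A.card * M.card : ℕ) : ℤ) := by
        push_cast
        linarith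
      exact_mod_cast h3
    obtain ⟨k, x, hkμ, hxz, hsum, hz2', hzk, hzk'⟩ :=
      step_exists hA2 htT hq hz2 hz hz' hneed
    obtain ⟨X, hXM, hXc⟩ := Finset.exists_subset_card_eq hkμ
    obtain ⟨Y, hYZ, hYc⟩ := Finset.exists_subset_card_eq hxz
    have hXY : Disjoint X Y := Finset.disjoint_of_subset_left hXM
      (Finset.disjoint_of_subset_right hYZ hS.dM1)
    have hXZ : Disjoint X Z₂ := Finset.disjoint_of_subset_left hXM hS.dM2
    have hYZ2 : Disjoint Y Z₂ := Finset.disjoint_of_subset_left hYZ hS.d12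
    -- touched vertices
    set W : Finset (Fin n) := X ∪ (Y ∪ Z₂) with hW
    have hWA : ∀ y ∈ W, y ∉ A := by
      intro y hy hyA
      simp only [hW, Finset.mem_union] at hy
      rcases hy with hy | hy | hy
      · exact Finset.disjoint_left.mp hS.dM hyA (hXM hy)
      · exact Finset.disjoint_left.mp hS.d1 hyA (hYZ hy)
      · exact Finset.disjoint_left.mp hS.d2 hyA hy
    have hWo : ∀ y ∈ W, y ∈ M ∪ Z₁ ∪ Z₂ := by
      intro y hy
      simp only [hW, Finset.mem_union] at hy ⊢
      rcases hy with hy | hy | hy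
      · exact Or.inl (Or.inl (hXM hy))
      · exact Or.inl (Or.inr (hYZ hy))
      · exact Or.inr hy
    -- the batch
    set P : Finset (Fin n × Fin n) :=
      (A ×ˢ X) ∪ (({p} : Finset (Fin n)) ×ˢ (Y ∪ Z₂) ∪ ({p'} : Finset (Fin n)) ×ˢ Z₂) with hP
    have hPmem : ∀ z ∈ P, z.1 ∈ A ∧ z.2 ∈ W ∧ s(z.1, z.2) ∈ U := by
      rintro ⟨a, y⟩ hz
      simp only [hP, Finset.mem_union, Finset.mem_product, Finset.mem_singleton] at hz
      simp only [hW, Finset.mem_union]
      rcases hz with ⟨ha, hy⟩ | ⟨ha, hy⟩ | ⟨ha, hy⟩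
      · exact ⟨ha, Or.inl hy, hS.hM a ha y (hXM hy)⟩
      · subst ha
        refine ⟨hS.hp, Or.inr hy, ?_⟩
        rcases hy with hy | hy
        · exact hS.h1 y (hYZ hy)
        · exact hS.h2 y hy
      · subst ha
        exact ⟨hS.hp', Or.inr (Or.inr hy), hS.h2' y hy⟩
    have hPcard : P.card = q + 1 := by
      have e1 : Disjoint (A ×ˢ X)
          (({p} : Finset (Fin n)) ×ˢ (Y ∪ Z₂) ∪ ({p'} : Finset (Fin n)) ×ˢ Z₂) := by
        rw [Finset.disjoint_left]
        rintro ⟨a, y⟩ h1 h2
        simp only [Finset.mem_union, Finset.mem_product, Finset.mem_singleton] at h1 h2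
        rcases h2 with ⟨_, h2 | h2⟩ | ⟨_, h2⟩
        · exact Finset.disjoint_left.mp hXY h1.2 h2
        · exact Finset.disjoint_left.mp hXZ h1.2 h2
        · exact Finset.disjoint_left.mp hXZ h1.2 h2
      have e2 : Disjoint (({p} : Finset (Fin n)) ×ˢ (Y ∪ Z₂))
          (({p'} : Finset (Fin n)) ×ˢ Z₂) := by
        rw [Finset.disjoint_left]
        rintro ⟨a, y⟩ h1 h2
        simp only [Finset.mem_product, Finset.mem_singleton] at h1 h2
        exact hS.hpp (h1.1.symm.trans h2.1)
      rw [hP, Finset.card_union_of_disjoint e1, Finset.card_union_of_disjoint e2,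
        Finset.card_product, Finset.card_product, Finset.card_product,
        Finset.card_union_of_disjoint hYZ2, Finset.card_singleton, Finset.card_singleton, hXc, hYc]
      omega
    have hinj : Set.InjOn (fun z : Fin n × Fin n => s(z.1, z.2)) (P : Set (Fin n × Fin n)) := by
      rintro ⟨a, y⟩ h1 ⟨b, z⟩ h2 h3
      simp only [Sym2.eq_iff] at h3
      have g1 := hPmem _ h1
      have g2 := hPmem _ h2
      rcases h3 with ⟨h3, h4⟩ | ⟨h3, h4⟩
      · rw [h3, h4]
      · exfalso
        simp only at g1 g2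
        apply hWA _ g2.2.1
        rw [← h3]; exact g1.1
    set S : Finset (Sym2 (Fin n)) := P.image (fun z => s(z.1, z.2)) with hSdef
    have hSc : S.card = q + 1 := by
      rw [hSdef, Finset.card_image_of_injOn hinj, hPcard]
    have hSU : S ⊆ U := by
      intro e he
      simp only [hSdef, Finset.mem_image] at he
      obtain ⟨z, hz, rfl⟩ := he
      exact (hPmem z hz).2.2
    -- edges of the batch join `A` to `W`
    have hSmem : ∀ a b : Fin n, s(a, b) ∈ S → (a ∈ A ∧ b ∈ W) ∨ (b ∈ A ∧ a ∈ W) := by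
      intro a b hab
      simp only [hSdef, Finset.mem_image] at hab
      obtain ⟨z, hz, hzz⟩ := hab
      have g := hPmem z hz
      rw [Sym2.eq_iff] at hzz
      rcases hzz with ⟨h3, h4⟩ | ⟨h3, h4⟩
      · left; rw [← h3, ← h4]; exact ⟨g.1, g.2.1⟩
      · right; rw [← h3, ← h4]; exact ⟨g.1, g.2.1⟩
    refine WaiterForces.round U C S hSU hSc ?_
    intro e he
    simp only [hSdef, Finset.mem_image] at he
    obtain ⟨⟨a, y⟩, hay, rfl⟩ := he
    obtain ⟨haA, hyW, -⟩ := hPmem _ hay
    simp only at haA hyW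
    have hyA : y ∉ A := hWA y hyW
    have hyo := hWo y hyW
    have hAo : ∀ b ∈ A, b ∉ M ∪ Z₁ ∪ Z₂ := by
      intro b hb hb2
      simp only [Finset.mem_union] at hb2
      rcases hb2 with (hb2 | hb2) | hb2
      · exact Finset.disjoint_left.mp hS.dM hb hb2
      · exact Finset.disjoint_left.mp hS.d1 hb hb2
      · exact Finset.disjoint_left.mp hS.d2 hb hb2
    have hMW : ∀ b ∈ M \ X, b ∉ W := by
      intro b hb hbW
      rw [Finset.mem_sdiff] at hb
      simp only [hW, Finset.mem_union] at hbW
      rcases hbW with h | h | h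
      · exact hb.2 h
      · exact Finset.disjoint_left.mp hS.dM1 hb.1 (hYZ h)
      · exact Finset.disjoint_left.mp hS.dM2 hb.1 h
    have hZW : ∀ b ∈ Z₁ \ Y, b ∉ W := by
      intro b hb hbW
      rw [Finset.mem_sdiff] at hb
      simp only [hW, Finset.mem_union] at hbW
      rcases hbW with h | h | h
      · exact Finset.disjoint_left.mp hS.dM1 (hXM h) hb.1
      · exact hb.2 h
      · exact Finset.disjoint_left.mp hS.d12 hb.1 h
    -- edges between outside vertices stay free
    have hout : ∀ b ∈ M ∪ Z₁ ∪ Z₂, ∀ c ∈ M ∪ Z₁ ∪ Z₂, b ≠ c → s(b, c) ∈ U \ S := by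
      intro b hb c hc hbc
      rw [Finset.mem_sdiff]
      refine ⟨hS.out b hb c hc hbc, ?_⟩
      intro h
      rcases hSmem b c h with ⟨h, _⟩ | ⟨h, _⟩
      · exact hAo b h hb
      · exact hAo c h hc
    have hnew : State (U \ S) (insert s(a, y) C) (insert y A) (M \ X) (W.erase y) (Z₁ \ Y) y p := by
      have hMsub : ∀ b ∈ M \ X, b ∈ M ∪ Z₁ ∪ Z₂ := by
        intro b hb
        simp only [Finset.mem_sdiff, Finset.mem_union] at hb ⊢
        exact Or.inl (Or.inl hb.1)
      have hZsub : ∀ b ∈ Z₁ \ Y, b ∈ M ∪ Z₁ ∪ Z₂ := by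
        intro b hb
        simp only [Finset.mem_sdiff, Finset.mem_union] at hb ⊢
        exact Or.inl (Or.inr hb.1)
      have hWsub : ∀ b ∈ W.erase y, b ∈ M ∪ Z₁ ∪ Z₂ := by
        intro b hb
        exact hWo b (Finset.mem_of_mem_erase hb)
      refine
        { hp := Finset.mem_insert_self _ _
          hp' := Finset.mem_insert_of_mem hS.hp
          hpp := ?_
          conn := ?_
          dM := ?_
          d1 := ?_
          d2 := ?_
          dM1 := ?_
          dM2 := ?_
          d12 := ?_
          hM := ?_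
          h1 := ?_
          h2 := ?_
          h2' := ?_
          out := ?_ }
      · intro h; exact hyA (h ▸ hS.hp)
      · have hadj : (clientGraph (insert s(a, y) C)).Adj y a := by
          unfold clientGraph
          rw [SimpleGraph.fromEdgeSet_adj]
          refine ⟨?_, ?_⟩
          · simp [Sym2.eq_swap]
          · intro h; exact hyA (h ▸ haA)
        intro b hb
        rw [Finset.mem_insert] at hb
        rcases hb with rfl | hb
        · exact SimpleGraph.Reachable.refl _
        · exact hadj.reachable.trans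
            (((reach_mono _ (hS.conn a haA)).symm).trans (reach_mono _ (hS.conn b hb)))
      · rw [Finset.disjoint_left]
        intro b hb hb2
        rw [Finset.mem_insert] at hb
        rcases hb with rfl | hb
        · exact hMW b hb2 hyW
        · exact hAo b hb (hMsub b hb2)
      · rw [Finset.disjoint_left]
        intro b hb hb2
        rw [Finset.mem_insert] at hb
        rcases hb with rfl | hb
        · exact (Finset.mem_erase.mp hb2).1 rfl
        · exact hAo b hb (hWsub b hb2)
      · rw [Finset.disjoint_left]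
        intro b hb hb2
        rw [Finset.mem_insert] at hb
        rcases hb with rfl | hb
        · exact hZW b hb2 hyW
        · exact hAo b hb (hZsub b hb2)
      · rw [Finset.disjoint_left]
        intro b hb hb2
        exact hMW b hb (Finset.mem_of_mem_erase hb2)
      · rw [Finset.disjoint_left]
        intro b hb hb2
        exact Finset.disjoint_left.mp hS.dM1 (Finset.mem_sdiff.mp hb).1 (Finset.mem_sdiff.mp hb2).1
      · rw [Finset.disjoint_left]
        intro b hb hb2
        exact hZW b hb2 (Finset.mem_of_mem_erase hb)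
      · intro b hb c hc
        rw [Finset.mem_insert] at hb
        rcases hb with rfl | hb
        · refine hout b hyo c (hMsub c hc) ?_
          rintro rfl
          exact hMW b hc hyW
        · rw [Finset.mem_sdiff]
          refine ⟨hS.hM b hb c (Finset.mem_sdiff.mp hc).1, ?_⟩
          intro h
          rcases hSmem b c h with ⟨_, h⟩ | ⟨h, _⟩
          · exact hMW c hc h
          · exact hAo c h (hMsub c hc)
      · intro c hc
        exact hout y hyo c (hWsub c hc) (fun h => (Finset.mem_erase.mp hc).1 h.symm)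
      · intro c hc
        refine hout y hyo c (hZsub c hc) ?_
        rintro rfl
        exact hZW y hc hyW
      · intro c hc
        rw [Finset.mem_sdiff]
        refine ⟨hS.h1 c (Finset.mem_sdiff.mp hc).1, ?_⟩
        intro h
        rcases hSmem p c h with ⟨_, h⟩ | ⟨h, _⟩
        · exact hZW c hc h
        · exact hAo c h (hZsub c hc)
      · intro b hb c hc hbc
        refine hout b ?_ c ?_ hbc
        · simp only [Finset.mem_union] at hb
          rcases hb with (hb | hb) | hb
          · exact hMsub b hb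
          · exact hWsub b hb
          · exact hZsub b hb
        · simp only [Finset.mem_union] at hc
          rcases hc with (hc | hc) | hc
          · exact hMsub c hc
          · exact hWsub c hc
          · exact hZsub c hc
    -- cardinalities
    have c1 : (insert y A).card = A.card + 1 := Finset.card_insert_of_notMem hyA
    have c2 : (M \ X).card + k = M.card := by
      rw [Finset.card_sdiff_of_subset hXM, hXc]; omega
    have c3 : (W.erase y).card + 1 = k + x + Z₂.card := by
      rw [Finset.card_erase_add_one hyW, hW,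
        Finset.card_union_of_disjoint (by
          rw [Finset.disjoint_union_right]; exact ⟨hXY, hXZ⟩),
        Finset.card_union_of_disjoint hYZ2, hXc, hYc]
      ring
    have c4 : (Z₁ \ Y).card + x = Z₁.card := by
      rw [Finset.card_sdiff_of_subset hYZ, hYc]; omega
    refine ih (U \ S) (insert s(a, y) C) (insert y A) (M \ X) (W.erase y) (Z₁ \ Y) y p hnew
      (by omega) (by omega) (by omega) (by omega) (by omega) (by omega) ?_
    have c2' : ((M \ X).card : ℤ) = M.card - k := by
      have : (((M \ X).card + k : ℕ) : ℤ) = M.card := by rw [c2]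
      push_cast at this; linarith
    have c3' : ((W.erase y).card : ℤ) = k + x + Z₂.card - 1 := by
      have : (((W.erase y).card + 1 : ℕ) : ℤ) = ((k + x + Z₂.card : ℕ) : ℤ) := by rw [c3]
      push_cast at this; linarith
    have c4' : ((Z₁ \ Y).card : ℤ) = Z₁.card - x := by
      have : (((Z₁ \ Y).card + x : ℕ) : ℤ) = Z₁.card := by rw [c4]
      push_cast at this; linarith
    have c1' : ((insert y A).card : ℤ) = A.card + 1 := by rw [c1]; push_cast; ring
    have hn' : (A.card : ℤ) + M.card + Z₁.card + Z₂.card + 1 = n := by exact_mod_cast hcard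
    have hs' : (A.card : ℤ) * k + x + 2 * Z₂.card = q + 1 := by exact_mod_cast hsum
    rw [c1', c2', c3', c4']
    unfold E2 at he ⊢
    linear_combination he + 2 * hn' - 2 * hs'

/-- The first round (two stars) followed by the growth phase. -/
theorem forces {n q T h₁ h₂ : ℕ} (hh : h₁ + h₂ = q + 1) (hn : q + 4 ≤ n)
    (hT : 2 ≤ T) (hq : 3 * T ≤ q) (h1 : 2 * T + 1 ≤ h₁) (h2 : 2 * T + 1 ≤ h₂)
    (hE1 : ∀ t : ℕ, 2 ≤ t → t < T → 2 * ((q : ℤ) + 1) ≤ E2 n q h₁ t)
    (hE2 : ∀ t : ℕ, 2 ≤ t → t < T → 2 * ((q : ℤ) + 1) ≤ E2 n q h₂ t) :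
    WaiterForces (n := n) q T (allEdges n) ∅ := by
  -- centres `u`, `v`
  obtain ⟨u, v, huv⟩ : ∃ u v : Fin n, u ≠ v :=
    ⟨⟨0, by omega⟩, ⟨1, by omega⟩, by intro h; simp [Fin.ext_iff] at h⟩
  have hcard : (((Finset.univ : Finset (Fin n)).erase u).erase v).card = n - 2 := by
    rw [Finset.card_erase_of_mem (by simp [huv.symm]), Finset.card_erase_of_mem (by simp)]
    simp; omega
  obtain ⟨Lu, hLu, hLuc⟩ := Finset.exists_subset_card_eq (s := ((Finset.univ : Finset (Fin n)).erase u).erase v)
    (n := h₁) (by omega)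
  obtain ⟨Lv, hLv, hLvc⟩ := Finset.exists_subset_card_eq (s := ((Finset.univ : Finset (Fin n)).erase u).erase v)
    (n := h₂) (by omega)
  have hall : ∀ a b : Fin n, s(a, b) ∈ allEdges n ↔ a ≠ b := by
    intro a b
    simp [allEdges]
  have key : ∀ (h h' : ℕ) (u v : Fin n) (L L' : Finset (Fin n)), h + h' = q + 1 →
      2 * T + 1 ≤ h → 2 * T + 1 ≤ h' →
      (∀ t : ℕ, 2 ≤ t → t < T → 2 * ((q : ℤ) + 1) ≤ E2 n q h t) → u ≠ v →
      (∀ x ∈ L, x ≠ u ∧ x ≠ v) → L.card = h →
      (∀ x ∈ L', x ≠ u ∧ x ≠ v) → L'.card = h' →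
      ∀ w ∈ L, WaiterForces (n := n) q T
        (allEdges n \ (L.image (fun x => s(u, x)) ∪ L'.image (fun x => s(v, x)))) {s(u, w)} := by
    intro h h' u v L L' hhh hTh hTh' hE huv hL hLc hL' hLc' w hw
    set S := L.image (fun x => s(u, x)) ∪ L'.image (fun x => s(v, x)) with hS
    have hwu := (hL w hw).1
    have hwv := (hL w hw).2
    have hSmem : ∀ a b : Fin n, s(a, b) ∈ S →
        (a = u ∧ b ∈ L) ∨ (b = u ∧ a ∈ L) ∨ (a = v ∧ b ∈ L') ∨ (b = v ∧ a ∈ L') := by
      intro a b hab
      simp only [hS, Finset.mem_union, Finset.mem_image, Sym2.eq_iff] at hab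
      rcases hab with ⟨x, hx, (⟨h3, h4⟩ | ⟨h3, h4⟩)⟩ | ⟨x, hx, (⟨h3, h4⟩ | ⟨h3, h4⟩)⟩
      · left; exact ⟨h3.symm, h4 ▸ hx⟩
      · right; left; exact ⟨h3.symm, h4 ▸ hx⟩
      · right; right; left; exact ⟨h3.symm, h4 ▸ hx⟩
      · right; right; right; exact ⟨h3.symm, h4 ▸ hx⟩
    set M : Finset (Fin n) := (((Finset.univ : Finset (Fin n)).erase u).erase v) \ L with hM
    have hMmem : ∀ x ∈ M, x ≠ u ∧ x ≠ v ∧ x ∉ L := by
      intro x hx
      simp only [hM, Finset.mem_sdiff, Finset.mem_erase, Finset.mem_univ, and_true] at hx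
      exact ⟨hx.1.2, hx.1.1, hx.2⟩
    have hLsub : L ⊆ (((Finset.univ : Finset (Fin n)).erase u).erase v) := by
      intro x hx
      simp only [Finset.mem_erase, Finset.mem_univ, and_true]
      exact ⟨(hL x hx).2, (hL x hx).1⟩
    have hcard' : (((Finset.univ : Finset (Fin n)).erase u).erase v).card = n - 2 := by
      rw [Finset.card_erase_of_mem (by simp [huv.symm]), Finset.card_erase_of_mem (by simp)]
      simp; omega
    have hMc : M.card + h + 2 = n := by
      rw [hM, Finset.card_sdiff_of_subset hLsub, hcard', hLc]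
      have := Finset.card_le_card hLsub
      omega
    have hwL : (L.erase w).card + 1 = h := by
      rw [Finset.card_erase_add_one hw, hLc]
    have hstate : State (allEdges n \ S) {s(u, w)} {u, w} M (L.erase w) ∅ w u := by
      have hnotS : ∀ a b : Fin n, a ≠ u → a ≠ v → b ≠ u → b ≠ v → a ≠ b →
          s(a, b) ∈ allEdges n \ S := by
        intro a b ha ha' hb hb' hab
        rw [Finset.mem_sdiff, hall]
        refine ⟨hab, fun h => ?_⟩
        rcases hSmem a b h with h | h | h | h
        · exact ha h.1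
        · exact hb h.1
        · exact ha' h.1
        · exact hb' h.1
      have hoo : ∀ x ∈ M ∪ L.erase w ∪ ∅, x ≠ u ∧ x ≠ v := by
        intro x hx
        simp only [Finset.union_empty, Finset.mem_union] at hx
        rcases hx with hx | hx
        · exact ⟨(hMmem x hx).1, (hMmem x hx).2.1⟩
        · exact hL x (Finset.mem_of_mem_erase hx)
      refine
        { hp := by simp
          hp' := by simp
          hpp := hwu
          conn := ?_
          dM := ?_
          d1 := ?_
          d2 := by simp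
          dM1 := ?_
          dM2 := by simp
          d12 := by simp
          hM := ?_
          h1 := ?_
          h2 := by simp
          h2' := by simp
          out := ?_ }
      · intro a ha
        rw [Finset.mem_insert, Finset.mem_singleton] at ha
        rcases ha with rfl | rfl
        · have hadj : (clientGraph ({s(a, w)} : Finset (Sym2 (Fin n)))).Adj w a := by
            unfold clientGraph
            rw [SimpleGraph.fromEdgeSet_adj]
            refine ⟨?_, hwu⟩
            simp [Sym2.eq_swap]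
          exact hadj.reachable
        · exact SimpleGraph.Reachable.refl _
      · rw [Finset.disjoint_left]
        intro b hb hb2
        rw [Finset.mem_insert, Finset.mem_singleton] at hb
        rcases hb with rfl | rfl
        · exact (hMmem b hb2).1 rfl
        · exact (hMmem b hb2).2.2 hw
      · rw [Finset.disjoint_left]
        intro b hb hb2
        rw [Finset.mem_insert, Finset.mem_singleton] at hb
        rcases hb with rfl | rfl
        · exact (hL b (Finset.mem_of_mem_erase hb2)).1 rfl
        · exact (Finset.mem_erase.mp hb2).1 rfl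
      · rw [Finset.disjoint_left]
        intro b hb hb2
        exact (hMmem b hb).2.2 (Finset.mem_of_mem_erase hb2)
      · intro a ha x hx
        rw [Finset.mem_insert, Finset.mem_singleton] at ha
        obtain ⟨hxu, hxv, hxL⟩ := hMmem x hx
        rcases ha with rfl | rfl
        · rw [Finset.mem_sdiff, hall]
          refine ⟨hxu.symm, fun h => ?_⟩
          rcases hSmem a x h with h | h | h | h
          · exact hxL h.2
          · exact hxu h.1
          · exact huv h.1
          · exact hxv h.1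
        · exact hnotS a x hwu hwv hxu hxv (fun h => hxL (h ▸ hw))
      · intro x hx
        have hx' := hL x (Finset.mem_of_mem_erase hx)
        exact hnotS w x hwu hwv hx'.1 hx'.2 (fun h => (Finset.mem_erase.mp hx).1 h.symm)
      · intro x hx y hy hxy
        exact hnotS x y (hoo x hx).1 (hoo x hx).2 (hoo y hy).1 (hoo y hy).2 hxy
    have hA2 : ({u, w} : Finset (Fin n)).card = 2 := by
      rw [Finset.card_insert_of_notMem (by simpa using hwu.symm), Finset.card_singleton]
    refine grow (h := h) hq hE (T - 2) _ _ _ _ _ _ _ _ hstate ?_ ?_ ?_ ?_ ?_ ?_ ?_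
    · rw [hA2]; omega
    · rw [hA2]
    · rw [hA2]; simp; omega
    · simp
    · simp; omega
    · simp; omega
    · rw [hA2]
      have e1 : ((L.erase w).card : ℤ) = h - 1 := by
        have : (((L.erase w).card + 1 : ℕ) : ℤ) = h := by rw [hwL]
        push_cast at this; linarith
      have e2 : (M.card : ℤ) = n - h - 2 := by
        have : ((M.card + h + 2 : ℕ) : ℤ) = n := by rw [hMc]
        push_cast at this; linarith
      rw [e1, e2]
      unfold E2
      simp
      ring
  have hLu' : ∀ x ∈ Lu, x ≠ u ∧ x ≠ v := by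
    intro x hx
    have := hLu hx
    simp only [Finset.mem_erase, Finset.mem_univ, and_true] at this
    exact ⟨this.2, this.1⟩
  have hLv' : ∀ x ∈ Lv, x ≠ u ∧ x ≠ v := by
    intro x hx
    have := hLv hx
    simp only [Finset.mem_erase, Finset.mem_univ, and_true] at this
    exact ⟨this.2, this.1⟩
  set S := Lu.image (fun x => s(u, x)) ∪ Lv.image (fun x => s(v, x)) with hS
  have hinj : ∀ c : Fin n, Function.Injective (fun x : Fin n => s(c, x)) := by
    intro c x y h
    simp only [Sym2.eq_iff] at h
    rcases h with ⟨_, h⟩ | ⟨h3, h4⟩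
    · exact h
    · rw [h4, h3]
  have hdisj : Disjoint (Lu.image (fun x => s(u, x))) (Lv.image (fun x => s(v, x))) := by
    rw [Finset.disjoint_left]
    intro e he he'
    simp only [Finset.mem_image] at he he'
    obtain ⟨x, hx, rfl⟩ := he
    obtain ⟨y, hy, hxy⟩ := he'
    rw [Sym2.eq_iff] at hxy
    rcases hxy with ⟨h3, _⟩ | ⟨h3, _⟩
    · exact huv h3.symm
    · exact (hLu' x hx).2 h3.symm
  refine WaiterForces.round _ _ S ?_ ?_ ?_
  · intro e he
    simp only [hS, Finset.mem_union, Finset.mem_image] at he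
    rcases he with ⟨x, hx, rfl⟩ | ⟨x, hx, rfl⟩
    · rw [hall]; exact (hLu' x hx).1.symm
    · rw [hall]; exact (hLv' x hx).2.symm
  · rw [hS, Finset.card_union_of_disjoint hdisj, Finset.card_image_of_injective _ (hinj u),
      Finset.card_image_of_injective _ (hinj v), hLuc, hLvc, hh]
  · intro e he
    have he2 := he
    simp only [hS, Finset.mem_union, Finset.mem_image] at he2
    rcases he2 with ⟨x, hx, rfl⟩ | ⟨x, hx, rfl⟩
    · have := key h₁ h₂ u v Lu Lv hh h1 h2 hE1 huv hLu' hLuc hLv' hLvc x hx
      simpa using this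
    · have := key h₂ h₁ v u Lv Lu (by omega) h2 h1 hE2 huv.symm
        (fun x hx => ⟨(hLv' x hx).2, (hLv' x hx).1⟩) hLvc
        (fun x hx => ⟨(hLu' x hx).2, (hLu' x hx).1⟩) hLuc x hx
      rw [Finset.union_comm] at this
      simpa using this

lemma E2_bound {n q h m K : ℕ} (hn : n = q + 1 + m) (hK : 1 ≤ K) (hh : 2 * h ≤ q + 2)
    (hbig : (2 * K + 7) * m + (K + 4) * (K + 4) ≤ n) :
    ∀ t : ℕ, 2 ≤ t → t < 2 * m + K → 2 * ((q : ℤ) + 1) ≤ E2 n q h t := by
  intro t ht htT
  have h1 : (n : ℤ) = q + 1 + m := by exact_mod_cast hn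
  have h2 : 2 * (h : ℤ) ≤ q + 2 := by exact_mod_cast hh
  have h3 : (2 * (K : ℤ) + 7) * m + (K + 4) * (K + 4) ≤ n := by exact_mod_cast hbig
  have h4 : (t : ℤ) + 1 ≤ 2 * m + K := by exact_mod_cast htT
  have h5 : (2 : ℤ) ≤ t := by exact_mod_cast ht
  have hK' : (1 : ℤ) ≤ K := by exact_mod_cast hK
  have hm' : (0 : ℤ) ≤ m := by positivity
  have key : (t : ℤ) * (t + 3 - 2 * m) ≤ n - m - 1 := by
    by_cases hc : (t : ℤ) + 3 - 2 * m ≤ 0
    · have : (t : ℤ) * (t + 3 - 2 * m) ≤ 0 :=
        mul_nonpos_of_nonneg_of_nonpos (by linarith) hc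
      have h6 : (0 : ℤ) ≤ n - m - 1 := by
        have : (0 : ℤ) ≤ q := by positivity
        linarith
      linarith
    · push Not at hc
      have h6 : (t : ℤ) * (t + 3 - 2 * m) ≤ (2 * m + K - 1) * (K + 2) := by
        apply mul_le_mul (by linarith) (by linarith) (by linarith)
        nlinarith
      nlinarith [mul_nonneg hm' (by linarith : (0 : ℤ) ≤ (K : ℤ))]
  unfold E2
  have e1 : (n : ℤ) - q - 3 = m - 2 := by rw [h1]; ring
  rw [e1]
  nlinarith [key]

/-- Explicit form: with `m = n - q - 1`, Waiter forces a component of order `2 m + K` as soon as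
`n ≥ (2 K + 7) m + (K + 4)²`. -/
theorem comp_lower {n q m K : ℕ} (hn : n = q + 1 + m) (hK : 1 ≤ K) (hm : 3 ≤ m)
    (hbig : (2 * K + 7) * m + (K + 4) * (K + 4) ≤ n) : 2 * m + K ≤ comp n q := by
  have hbig' : 9 * m + 8 * K + 16 ≤ n := by
    have h1 : 9 * m ≤ (2 * K + 7) * m := Nat.mul_le_mul_right m (by omega)
    have h2 : 8 * K + 16 ≤ (K + 4) * (K + 4) := by nlinarith
    omega
  have hf : WaiterForces (n := n) q (2 * m + K) (allEdges n) ∅ := by
    refine forces (h₁ := (q + 1) / 2) (h₂ := (q + 1) - (q + 1) / 2) (by omega) (by omega)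
      (by omega) (by omega) (by omega) (by omega) ?_ ?_
    · exact E2_bound hn hK (by omega) hbig
    · exact E2_bound hn hK (by omega) hbig
  unfold comp
  exact le_csSup ⟨n, fun s hs => WaiterForces.le hs⟩ hf

theorem result :
    (∀ K : ℕ, 1 ≤ K → ∀ ε : ℝ, 0 < ε → (2 * K + 7) * ε < 1 →
      ∃ N : ℕ, ∀ n q : ℕ, N ≤ n → (q : ℝ) = (1 - ε) * n →
        min n (2 * (n - q - 1)) + K ≤ comp n q) ∧
    ¬ (∀ ε : ℝ, 0 < ε → ∃ N : ℕ, ∀ n q : ℕ, N ≤ n → 0 < q → (q : ℝ) = (1 - ε) * n →
        comp n q = min n (2 * (n - q - 1))) := by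
  have main : ∀ K : ℕ, 1 ≤ K → ∀ ε : ℝ, 0 < ε → (2 * K + 7) * ε < 1 →
      ∃ N : ℕ, ∀ n q : ℕ, N ≤ n → (q : ℝ) = (1 - ε) * n →
        min n (2 * (n - q - 1)) + K ≤ comp n q := by
    intro K hK ε hε hKε
    obtain ⟨N1, hN1⟩ := exists_nat_ge (4 / ε)
    obtain ⟨N2, hN2⟩ := exists_nat_ge (((K : ℝ) + 4) * (K + 4) / (1 - (2 * K + 7) * ε))
    refine ⟨max N1 N2, ?_⟩
    intro n q hn hq
    have hn1 : (N1 : ℝ) ≤ n := by exact_mod_cast (le_max_left _ _).trans hn
    have hn2 : (N2 : ℝ) ≤ n := by exact_mod_cast (le_max_right _ _).trans hn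
    have h4 : 4 ≤ ε * n := by
      have := hN1.trans hn1
      rw [div_le_iff₀ hε] at this
      linarith
    have h5 : ((K : ℝ) + 4) * (K + 4) ≤ (1 - (2 * K + 7) * ε) * n := by
      have := hN2.trans hn2
      rw [div_le_iff₀ (by linarith)] at this
      linarith
    have hq2 : (q : ℝ) + 4 ≤ n := by rw [hq]; linarith
    have hq3 : q + 4 ≤ n := by exact_mod_cast hq2
    obtain ⟨m, hm⟩ : ∃ m, n = q + 1 + m := ⟨n - q - 1, by omega⟩
    have hmr : (m : ℝ) = ε * n - 1 := by
      have : (n : ℝ) = q + 1 + m := by exact_mod_cast hm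
      rw [hq] at this
      linarith
    have hbig : (2 * K + 7) * m + (K + 4) * (K + 4) ≤ n := by
      have : (2 * (K : ℝ) + 7) * m + (K + 4) * (K + 4) ≤ n := by
        rw [hmr]
        have hK0 : (0 : ℝ) ≤ K := by positivity
        nlinarith
      exact_mod_cast this
    have := comp_lower hm hK (by omega) hbig
    have e : n - q - 1 = m := by omega
    rw [e]
    have := min_le_right n (2 * m)
    omega
  refine ⟨main, ?_⟩
  intro hQ
  obtain ⟨N1, hN1⟩ := hQ (1 / 10) (by norm_num)
  obtain ⟨N2, hN2⟩ := main 1 le_rfl (1 / 10) (by norm_num) (by norm_num)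
  set N := max N1 N2 + 1 with hN
  have hc : ((9 * N : ℕ) : ℝ) = (1 - 1 / 10) * ((10 * N : ℕ) : ℝ) := by push_cast; ring
  have h1 := hN1 (10 * N) (9 * N) (by omega) (by omega) hc
  have h2 := hN2 (10 * N) (9 * N) (by omega) hc
  omega

end Pool.Agent.Results.MP_933b0f_co.LargerComponent
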